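import Mathlib

/-!
# MP_8bcb9d_co: empty triangles and convex layers (helper27): basic notions
-/

set_option autoImplicit false

namespace Layers8bcb

open Finset

abbrev E := EuclideanSpace ℝ (Fin 2)

/-- twice the signed area of the triangle `x y z` -/
def D (x y z : E) : ℝ := (y 0 - x 0) * (z 1 - x 1) - (y 1 - x 1) * (z 0 - x 0)

/-- no three points of `X` are collinear -/
def Gp (X : Finset E) : Prop :=
  ∀ a ∈ X, ∀ b ∈ X, ∀ c ∈ X, a ≠ b → a ≠ c → b ≠ c → D a b c ≠ 0

/-- `a b` is an edge of the convex hull of `Y`, all other points of `Y` are on its left -/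
def Edge (Y : Finset E) (a b : E) : Prop :=
  b ∈ Y ∧ b ≠ a ∧ ∀ c ∈ Y, c ≠ a → c ≠ b → 0 < D a b c

/-- the third vertices of the empty triangles with side `x y` -/
def Deg (X : Finset E) (x y : E) : Set E :=
  {z : E | z ∈ X ∧ z ≠ x ∧ z ≠ y ∧
    ∀ w ∈ X, w ∈ convexHull ℝ ({x, y, z} : Set E) → w = x ∨ w = y ∨ w = z}

theorem Deg.finite (X : Finset E) (x y : E) : (Deg X x y).Finite :=
  X.finite_toSet.subset fun _ hz => hz.1

end Layers8bcb
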