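import Pool.Agent.Lib.MP_8bcb9d_coL.Base

/-! # leaf Col: general position in coordinates -/

set_option autoImplicit false

namespace Layers8bcb

open Finset

private theorem ext_E {x y : E} (h0 : x 0 = y 0) (h1 : x 1 = y 1) : x = y := by
  ext i
  fin_cases i
  · exact h0
  · exact h1

private theorem col_of {a b c : E} (hab : a ≠ b) (h : D a b c = 0) :
    Collinear ℝ ({a, b, c} : Set E) := by
  rw [collinear_iff_of_mem (p₀ := a) (by simp)]
  refine ⟨b - a, ?_⟩
  have hD : (b 0 - a 0) * (c 1 - a 1) - (b 1 - a 1) * (c 0 - a 0) = 0 := h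
  have key : ∃ t : ℝ, c = t • (b - a) + a := by
    by_cases h0 : b 0 - a 0 = 0
    · have h1 : b 1 - a 1 ≠ 0 := by
        intro h1
        exact hab (ext_E (by linarith) (by linarith))
      refine ⟨(c 1 - a 1) / (b 1 - a 1), ext_E ?_ ?_⟩
      · have h2 : (b 1 - a 1) * (c 0 - a 0) = 0 := by rw [h0] at hD; linarith
        have h3 : c 0 - a 0 = 0 := by
          rcases mul_eq_zero.1 h2 with h4 | h4
          · exact absurd h4 h1
          · exact h4
        simp only [PiLp.add_apply, PiLp.smul_apply, PiLp.sub_apply, smul_eq_mul]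
        rw [h0]; linarith
      · simp only [PiLp.add_apply, PiLp.smul_apply, PiLp.sub_apply, smul_eq_mul]
        rw [div_mul_cancel₀ _ h1]; ring
    · refine ⟨(c 0 - a 0) / (b 0 - a 0), ext_E ?_ ?_⟩
      · simp only [PiLp.add_apply, PiLp.smul_apply, PiLp.sub_apply, smul_eq_mul]
        rw [div_mul_cancel₀ _ h0]; ring
      · simp only [PiLp.add_apply, PiLp.smul_apply, PiLp.sub_apply, smul_eq_mul]
        have h2 : (c 0 - a 0) / (b 0 - a 0) * (b 1 - a 1) = c 1 - a 1 := by
          rw [div_mul_eq_mul_div, div_eq_iff h0]; linarith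
        rw [h2]; ring
  intro p hp
  simp only [Set.mem_insert_iff, Set.mem_singleton_iff] at hp
  rcases hp with rfl | rfl | rfl
  · exact ⟨0, by simp⟩
  · exact ⟨1, by simp⟩
  · obtain ⟨t, ht⟩ := key
    exact ⟨t, by rw [vadd_eq_add]; exact ht⟩

theorem gp_of {X : Finset E}
    (h : ∀ a ∈ X, ∀ b ∈ X, ∀ c ∈ X, a ≠ b → a ≠ c → b ≠ c → ¬ Collinear ℝ ({a, b, c} : Set E)) :
    Gp X := by
  intro a ha b hb c hc hab hac hbc hD
  exact h a ha b hb c hc hab hac hbc (col_of hab hD)

end Layers8bcb
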