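import Pool.Agent.Lib.MP_8bcb9d_coL.Base

/-! # leaf Fan: the triangles with apex `c` over two different edges have no common point -/

set_option autoImplicit false

namespace Layers8bcb

open Finset

private theorem fan_mem {a b c q : E} (h : q ∈ convexHull ℝ ({a, b, c} : Set E)) :
    ∃ al be ga : ℝ, 0 ≤ al ∧ 0 ≤ be ∧ 0 ≤ ga ∧ al + be + ga = 1 ∧
      ∀ i, q i = al * a i + be * b i + ga * c i := by
  rw [convexHull_insert (by simp), mem_convexJoin] at h
  obtain ⟨x, hx, y, hy, hq⟩ := h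
  rw [Set.mem_singleton_iff] at hx
  subst hx
  rw [convexHull_pair] at hy
  obtain ⟨u, v, hu, hv, huv, rfl⟩ := hy
  obtain ⟨s, t, hs, ht, hst, rfl⟩ := hq
  refine ⟨s, t * u, t * v, hs, mul_nonneg ht hu, mul_nonneg ht hv, ?_, fun i => ?_⟩
  · rw [add_assoc, ← mul_add, huv, mul_one, hst]
  · simp only [PiLp.add_apply, PiLp.smul_apply, smul_eq_mul]
    ring

private theorem fan_aff (x y : E) {a b c q : E} {al be ga : ℝ} (h : al + be + ga = 1)
    (hq : ∀ i, q i = al * a i + be * b i + ga * c i) :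
    D x y q = al * D x y a + be * D x y b + ga * D x y c := by
  obtain rfl : al = 1 - be - ga := by linarith
  unfold D
  rw [hq 0, hq 1]
  ring

private theorem fan_D_left (x y : E) : D x y x = 0 := by
  unfold D
  ring

private theorem fan_D_right (x y : E) : D x y y = 0 := by
  unfold D
  ring

private theorem fan_D_swap (x y z : E) : D y x z = - D x y z := by
  unfold D
  ring

private theorem fan_nonneg {Y : Finset E} {a b : E} (hab : Edge Y a b) {x : E} (hx : x ∈ Y) :
    0 ≤ D a b x := by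
  by_cases h1 : x = a
  · rw [h1, fan_D_left]
  · by_cases h2 : x = b
    · rw [h2, fan_D_right]
    · exact (hab.2.2 x hx h1 h2).le

private theorem fan_zero {Y : Finset E} {a b : E} (hab : Edge Y a b) {x : E} (hx : x ∈ Y)
    (h : D a b x = 0) : x = a ∨ x = b := by
  by_contra hcon
  rw [not_or] at hcon
  exact absurd h (hab.2.2 x hx hcon.1 hcon.2).ne'

theorem fan {Y : Finset E} (hY : Gp Y) {a b a' b' c q : E} (ha : a ∈ Y) (hab : Edge Y a b)
    (ha' : a' ∈ Y) (hab' : Edge Y a' b') (hne : a ≠ a') (hc : c ∈ Y) (ca : c ≠ a) (cb : c ≠ b)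
    (ca' : c ≠ a') (cb' : c ≠ b') (hq : q ∈ Y) (q1 : q ≠ a) (q2 : q ≠ b) (q3 : q ≠ c)
    (q4 : q ≠ a') (q5 : q ≠ b') (h1 : q ∈ convexHull ℝ ({a, b, c} : Set E))
    (h2 : q ∈ convexHull ℝ ({a', b', c} : Set E)) : False := by
  obtain ⟨al, be, ga, hal, hbe, hga, hsum, hqq⟩ := fan_mem h1
  obtain ⟨al', be', ga', hal', hbe', hga', hsum', hqq'⟩ := fan_mem h2
  have hLc : 0 < D a b c := hab.2.2 c hc ca cb
  have hLc' : 0 < D a' b' c := hab'.2.2 c hc ca' cb'
  have e1 := fan_aff a b hsum hqq
  have e2 := fan_aff a b hsum' hqq'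
  have e3 := fan_aff a' b' hsum hqq
  have e4 := fan_aff a' b' hsum' hqq'
  rw [fan_D_left, fan_D_right, mul_zero, mul_zero, zero_add, zero_add] at e1
  rw [fan_D_left, fan_D_right, mul_zero, mul_zero, zero_add, zero_add] at e4
  have n1 : 0 ≤ al' * D a b a' := mul_nonneg hal' (fan_nonneg hab ha')
  have n2 : 0 ≤ be' * D a b b' := mul_nonneg hbe' (fan_nonneg hab hab'.1)
  have n3 : 0 ≤ al * D a' b' a := mul_nonneg hal (fan_nonneg hab' ha)
  have n4 : 0 ≤ be * D a' b' b := mul_nonneg hbe (fan_nonneg hab' hab.1)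
  have g1 : ga' ≤ ga := by
    have : ga' * D a b c ≤ ga * D a b c := by linarith
    exact le_of_mul_le_mul_right this hLc
  have g2 : ga ≤ ga' := by
    have : ga * D a' b' c ≤ ga' * D a' b' c := by linarith
    exact le_of_mul_le_mul_right this hLc'
  have g3 : ga = ga' := le_antisymm g2 g1
  subst g3
  have z1 : al' * D a b a' = 0 := by linarith
  have z2 : be' * D a b b' = 0 := by linarith
  have al0 : al' ≠ 0 := by
    intro h0
    have e5 := fan_aff b' c hsum' hqq'
    rw [h0, zero_mul, fan_D_left, fan_D_right, mul_zero, mul_zero, zero_add, zero_add] at e5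
    exact hY b' hab'.1 c hc q hq cb'.symm q5.symm q3.symm e5
  have be0 : be' ≠ 0 := by
    intro h0
    have e5 := fan_aff a' c hsum' hqq'
    rw [h0, zero_mul, fan_D_left, fan_D_right, mul_zero, mul_zero, zero_add, zero_add] at e5
    exact hY a' ha' c hc q hq ca'.symm q4.symm q3.symm e5
  have w1 : D a b a' = 0 := (mul_eq_zero.1 z1).resolve_left al0
  have w2 : D a b b' = 0 := (mul_eq_zero.1 z2).resolve_left be0
  have u1 : a' = b := (fan_zero hab ha' w1).resolve_left hne.symm
  subst u1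
  have u2 : b' = a := (fan_zero hab hab'.1 w2).resolve_right hab'.2.1
  subst u2
  rw [fan_D_swap] at hLc'
  linarith

end Layers8bcb
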