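import Pool.Agent.Lib.MP_8bcb9d_coL.Base

/-! # leaf Succ: every vertex of the convex hull is the start of an edge -/

set_option autoImplicit false

namespace Layers8bcb

open Finset

private theorem succ_coord (f : E →L[ℝ] ℝ) (v : E) :
    f v = f (EuclideanSpace.single 0 1) * v 0 + f (EuclideanSpace.single 1 1) * v 1 := by
  have h : v = v 0 • (EuclideanSpace.single 0 (1 : ℝ) : E) +
      v 1 • (EuclideanSpace.single 1 (1 : ℝ) : E) := by
    ext i
    fin_cases i <;> simp
  conv_lhs => rw [h]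
  rw [map_add, map_smul, map_smul, smul_eq_mul, smul_eq_mul]
  ring

theorem exists_edge {Y : Finset E} (hY : Gp Y) {a : E} (ha : a ∈ Y) (h2 : ∃ c ∈ Y, c ≠ a)
    (hext : a ∉ convexHull ℝ ((Y : Set E) \ {a})) : ∃ b, Edge Y a b := by
  classical
  have hS : ((Y : Set E) \ {a}) = ((Y.erase a : Finset E) : Set E) := (Finset.coe_erase a Y).symm
  rw [hS] at hext
  have hcl : IsClosed (convexHull ℝ ((Y.erase a : Finset E) : Set E)) :=
    (Finset.finite_toSet _).isClosed_convexHull (𝕜 := ℝ)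
  obtain ⟨f, u, hfa, hfu⟩ := geometric_hahn_banach_point_closed (convex_convexHull ℝ _) hcl hext
  have hF : ∀ c ∈ Y.erase a, 0 < f c - f a := by
    intro c hc
    have := hfu c (subset_convexHull ℝ _ (Finset.mem_coe.2 hc))
    linarith
  set p := f (EuclideanSpace.single 0 1) with hp
  set q := f (EuclideanSpace.single 1 1) with hq
  have hco : ∀ v : E, f v = p * v 0 + q * v 1 := fun v => succ_coord f v
  set G : E → ℝ := fun c => -q * (c 0 - a 0) + p * (c 1 - a 1) with hG
  obtain ⟨c0, hc0, hc0a⟩ := h2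
  have hne : (Y.erase a).Nonempty := ⟨c0, Finset.mem_erase.2 ⟨hc0a, hc0⟩⟩
  obtain ⟨b, hb, hmin⟩ := Finset.exists_min_image (Y.erase a) (fun c => G c / (f c - f a)) hne
  have hb' := Finset.mem_erase.1 hb
  refine ⟨b, hb'.2, hb'.1, ?_⟩
  intro c hcY hca hcb
  have hc : c ∈ Y.erase a := Finset.mem_erase.2 ⟨hca, hcY⟩
  have h1 := hmin c hc
  have hFb := hF b hb
  have hFc := hF c hc
  rw [div_le_div_iff₀ hFb hFc] at h1
  have hid : (p ^ 2 + q ^ 2) * D a b c = (f b - f a) * G c - G b * (f c - f a) := by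
    rw [hco a, hco b, hco c, hG]
    unfold D
    ring
  have h3 : 0 ≤ (p ^ 2 + q ^ 2) * D a b c := by
    rw [hid]
    linarith
  have hpq : 0 < p ^ 2 + q ^ 2 := by
    by_contra hcon
    have hp0 : p = 0 := by nlinarith [sq_nonneg p, sq_nonneg q]
    have hq0 : q = 0 := by nlinarith [sq_nonneg p, sq_nonneg q]
    rw [hco a, hco b, hp0, hq0] at hFb
    simp at hFb
  have h4 : 0 ≤ D a b c := nonneg_of_mul_nonneg_right h3 hpq
  exact lt_of_le_of_ne h4 (Ne.symm (hY a ha b hb'.2 c hcY hb'.1.symm hca.symm (Ne.symm hcb)))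

end Layers8bcb
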