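import Pool.Agent.Lib.MP_8bcb9d_coL.Col
import Pool.Agent.Lib.MP_8bcb9d_coL.Succ
import Pool.Agent.Lib.MP_8bcb9d_coL.Fan

/-! # leaf Count: counting the empty triangles over the edges of the convex hull -/

set_option autoImplicit false

namespace Layers8bcb

open Finset

theorem edge_inj {Y : Finset E} {a a' b : E} (ha : a ∈ Y) (ha' : a' ∈ Y) (h : Edge Y a b)
    (h' : Edge Y a' b) : a = a' := by
  by_contra hne
  have h1 := h.2.2 a' ha' (Ne.symm hne) (Ne.symm h'.2.1)
  have h2 := h'.2.2 a ha hne (Ne.symm h.2.1)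
  have h3 : D a b a' + D a' b a = 0 := by unfold D; ring
  linarith

theorem key {K : ℕ} {X Y H : Finset E} (hX : Gp X) (hYX : Y ⊆ X)
    (hcl : ∀ w ∈ X, w ∈ convexHull ℝ (Y : Set E) → w ∈ Y) (hHY : H ⊆ Y)
    (hH : ∀ p ∈ H, p ∉ convexHull ℝ ((Y : Set E) \ {p}))
    (hdeg : ∀ x ∈ X, ∀ y ∈ X, x ≠ y → (Deg X x y).ncard ≤ K) :
    2 * H.card ≤ Y.card + K + 2 := by
  classical
  have hYc : H.card ≤ Y.card := card_le_card hHY
  rcases Nat.lt_or_ge H.card 3 with h3 | h3
  · omega
  by_contra hcon
  have hY : Gp Y := fun a ha b hb c hc => hX a (hYX ha) b (hYX hb) c (hYX hc)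
  have hex : ∀ a, ∃ b, a ∈ H → Edge Y a b := by
    intro a
    by_cases ha : a ∈ H
    · obtain ⟨c, hc, hca⟩ := Finset.exists_mem_ne (show 1 < H.card by omega) a
      obtain ⟨b, hb⟩ := exists_edge hY (hHY ha) ⟨c, hHY hc, hca⟩ (hH a ha)
      exact ⟨b, fun _ => hb⟩
    · exact ⟨a, fun h => absurd h ha⟩
  choose s hs using hex
  have hinj : ∀ a ∈ H, ∀ a' ∈ H, s a = s a' → a = a' := by
    intro a ha a' ha' he
    have h1 := hs a ha
    rw [he] at h1
    exact edge_inj (hHY ha) (hHY ha') h1 (hs a' ha')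
  have hi : (Y \ H).card + H.card = Y.card := card_sdiff_add_card_eq_card hHY
  have hgood : ∀ c ∈ H, K + 1 ≤ (H.filter fun a => c ∈ Deg X a (s a)).card := by
    intro c hc
    have hA : H.card ≤ (H.filter fun a => a ≠ c ∧ s a ≠ c).card + 2 := by
      have h1 : H ⊆ ((H.filter fun a => a ≠ c ∧ s a ≠ c) ∪ {c}) ∪ (H.filter fun a => s a = c) := by
        intro a ha
        by_cases h1 : a = c
        · simp [h1]
        · by_cases h2 : s a = c
          · simp [ha, h2]
          · simp [ha, h1, h2]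
      have h2 : (H.filter fun a => s a = c).card ≤ 1 := by
        rw [card_le_one]
        intro a ha a' ha'
        rw [mem_filter] at ha ha'
        exact hinj a ha.1 a' ha'.1 (by rw [ha.2, ha'.2])
      have h3 := card_le_card h1
      have h4 := card_union_le ((H.filter fun a => a ≠ c ∧ s a ≠ c) ∪ {c})
        (H.filter fun a => s a = c)
      have h5 := card_union_le (H.filter fun a => a ≠ c ∧ s a ≠ c) {c}
      have h6 : ({c} : Finset E).card = 1 := card_singleton c
      omega
    have hbad : ((H.filter fun a => a ≠ c ∧ s a ≠ c).filter fun a => c ∉ Deg X a (s a)).card ≤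
        (Y \ H).card := by
      have hq : ∀ a, ∃ q, a ∈ ((H.filter fun a => a ≠ c ∧ s a ≠ c).filter
          fun a => c ∉ Deg X a (s a)) → q ∈ Y \ H ∧ q ∈ convexHull ℝ ({a, s a, c} : Set E) ∧
          q ≠ a ∧ q ≠ s a ∧ q ≠ c := by
        intro a
        by_cases ha : a ∈ ((H.filter fun a => a ≠ c ∧ s a ≠ c).filter
          fun a => c ∉ Deg X a (s a))
        swap
        · exact ⟨a, fun h => absurd h ha⟩
        have ha0 := ha
        rw [mem_filter, mem_filter] at ha
        obtain ⟨⟨haH, hac, hsc⟩, hdc⟩ := ha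
        have hw : ∃ w ∈ X, w ∈ convexHull ℝ ({a, s a, c} : Set E) ∧ w ≠ a ∧ w ≠ s a ∧ w ≠ c := by
          by_contra hno
          push Not at hno
          refine hdc ⟨hYX (hHY hc), Ne.symm hac, Ne.symm hsc, fun w hw hwc => ?_⟩
          by_cases w1 : w = a
          · exact Or.inl w1
          · by_cases w2 : w = s a
            · exact Or.inr (Or.inl w2)
            · exact Or.inr (Or.inr (hno w hw hwc w1 w2))
        obtain ⟨w, hwX, hwc, w1, w2, w3⟩ := hw
        have hsub : ({a, s a, c} : Set E) ⊆ (Y : Set E) \ {w} := by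
          intro z hz
          rcases hz with hz | hz | hz
          · rw [hz]; exact ⟨hHY haH, fun h => w1 h.symm⟩
          · rw [hz]; exact ⟨(hs a haH).1, fun h => w2 h.symm⟩
          · rw [hz]; exact ⟨hHY hc, fun h => w3 h.symm⟩
        have hwY : w ∈ Y := hcl w hwX
          (convexHull_mono (hsub.trans Set.diff_subset) hwc)
        have hwH : w ∉ H := fun h => hH w h (convexHull_mono hsub hwc)
        exact ⟨w, fun _ => ⟨mem_sdiff.2 ⟨hwY, hwH⟩, hwc, w1, w2, w3⟩⟩
      choose q hq using hq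
      refine card_le_card_of_injOn q (fun a ha => (hq a ha).1) ?_
      intro a ha a' ha' he
      by_contra hne
      have e1 := hq a ha
      have e2 := hq a' ha'
      rw [mem_coe, mem_filter, mem_filter] at ha ha'
      rw [← he] at e2
      exact fan hY (hHY ha.1.1) (hs a ha.1.1) (hHY ha'.1.1) (hs a' ha'.1.1) hne (hHY hc)
        (Ne.symm ha.1.2.1) (Ne.symm ha.1.2.2) (Ne.symm ha'.1.2.1) (Ne.symm ha'.1.2.2)
        (mem_sdiff.1 e1.1).1 e1.2.2.1 e1.2.2.2.1 e1.2.2.2.2 e2.2.2.1 e2.2.2.2.1 e1.2.1 e2.2.1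
    have hsplit := card_filter_add_card_filter_not (s := H.filter fun a => a ≠ c ∧ s a ≠ c)
      (fun a => c ∈ Deg X a (s a))
    have hle : ((H.filter fun a => a ≠ c ∧ s a ≠ c).filter fun a => c ∈ Deg X a (s a)).card ≤
        (H.filter fun a => c ∈ Deg X a (s a)).card :=
      card_le_card (filter_subset_filter _ (filter_subset _ _))
    omega
  have h1 : H.card * (K + 1) ≤ ∑ c ∈ H, (H.filter fun a => c ∈ Deg X a (s a)).card := by
    have := card_nsmul_le_sum H (fun c => (H.filter fun a => c ∈ Deg X a (s a)).card) (K + 1) hgood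
    simpa using this
  have h2 : ∑ a ∈ H, (H.filter fun c => c ∈ Deg X a (s a)).card ≤ H.card * K := by
    have : ∀ a ∈ H, (H.filter fun c => c ∈ Deg X a (s a)).card ≤ K := by
      intro a ha
      have hd := hdeg a (hYX (hHY ha)) (s a) (hYX (hs a ha).1) (Ne.symm (hs a ha).2.1)
      refine le_trans ?_ hd
      rw [← Set.ncard_coe_finset]
      refine Set.ncard_le_ncard ?_ (Deg.finite X a (s a))
      intro c hc
      rw [mem_coe, mem_filter] at hc
      exact hc.2
    have := sum_le_card_nsmul H (fun a => (H.filter fun c => c ∈ Deg X a (s a)).card) K this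
    simpa using this
  have h3' : ∑ c ∈ H, (H.filter fun a => c ∈ Deg X a (s a)).card =
      ∑ a ∈ H, (H.filter fun c => c ∈ Deg X a (s a)).card := by
    simp only [card_filter]
    rw [sum_comm]
  have h4 : H.card * (K + 1) ≤ H.card * K := by
    calc _ ≤ _ := h1
      _ = _ := h3'
      _ ≤ _ := h2
  have h5 : H.card * (K + 1) = H.card * K + H.card := by ring
  omega

end Layers8bcb
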