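import Pool.Agent.Lib.MP_8bcb9d_coL.Count

/-!
# MP_8bcb9d_co: empty triangles and convex layers (helper27)
-/

set_option autoImplicit false

namespace Layers8bcb

open Finset

theorem main :
    ∀ (K m : ℕ) (X : Finset (EuclideanSpace ℝ (Fin 2)))
      (Y : ℕ → Finset (EuclideanSpace ℝ (Fin 2))),
      (∀ a ∈ X, ∀ b ∈ X, ∀ c ∈ X, a ≠ b → a ≠ c → b ≠ c →
        ¬ Collinear ℝ ({a, b, c} : Set (EuclideanSpace ℝ (Fin 2)))) →
      Y 0 ⊆ X →
      (∀ w ∈ X, w ∈ convexHull ℝ (Y 0 : Set (EuclideanSpace ℝ (Fin 2))) → w ∈ Y 0) →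
      (∀ j < m, Y (j + 1) ⊆ Y j) →
      (∀ j < m, ∀ p ∈ Y j, p ∉ Y (j + 1) →
        p ∉ convexHull ℝ ((Y j : Set (EuclideanSpace ℝ (Fin 2))) \ {p})) →
      2 ^ m * (Y m).card + (2 ^ m - 1) * (K + 2) < (Y 0).card →
      ∃ x ∈ X, ∃ y ∈ X, x ≠ y ∧
        K < {z : EuclideanSpace ℝ (Fin 2) | z ∈ X ∧ z ≠ x ∧ z ≠ y ∧
              ∀ w ∈ X, w ∈ convexHull ℝ ({x, y, z} : Set (EuclideanSpace ℝ (Fin 2))) →
                w = x ∨ w = y ∨ w = z}.ncard := by
  classical
  intro K m X Y hgp h0 hcl hsub hext hcard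
  by_contra hcon
  push Not at hcon
  have hX : Gp X := gp_of hgp
  have hdeg : ∀ x ∈ X, ∀ y ∈ X, x ≠ y → (Deg X x y).ncard ≤ K :=
    fun x hx y hy hxy => hcon x hx y hy hxy
  have claim : ∀ j ≤ m, Y j ⊆ X ∧
      (∀ w ∈ X, w ∈ convexHull ℝ (Y j : Set E) → w ∈ Y j) ∧
      (Y 0).card ≤ 2 ^ j * (Y j).card + (2 ^ j - 1) * (K + 2) := by
    intro j
    induction j with
    | zero => intro _; exact ⟨h0, hcl, by simp⟩
    | succ j ih =>
      intro hj
      obtain ⟨i1, i2, i3⟩ := ih (by omega)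
      have hs := hsub j (by omega)
      have he := hext j (by omega)
      refine ⟨hs.trans i1, fun w hw hwc => ?_, ?_⟩
      · have h1 : w ∈ Y j := i2 w hw (convexHull_mono (by exact_mod_cast hs) hwc)
        by_contra h2
        refine he w h1 h2 (convexHull_mono ?_ hwc)
        intro z hz
        refine ⟨hs hz, fun h => h2 ?_⟩
        rw [Set.mem_singleton_iff] at h
        rw [← h]; exact hz
      · have hk := key (K := K) (H := Y j \ Y (j + 1)) hX i1 i2 sdiff_subset (fun p hp => by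
          rw [mem_sdiff] at hp
          exact he p hp.1 hp.2) hdeg
        have hc : (Y j \ Y (j + 1)).card + (Y (j + 1)).card = (Y j).card :=
          card_sdiff_add_card_eq_card hs
        have hle : (Y j).card ≤ 2 * (Y (j + 1)).card + (K + 2) := by omega
        obtain ⟨t, ht⟩ : ∃ t, 2 ^ j = t + 1 :=
          ⟨2 ^ j - 1, by have := Nat.one_le_two_pow (n := j); omega⟩
        have e1 : 2 ^ (j + 1) = 2 * t + 2 := by rw [pow_succ, ht]; ring
        rw [ht] at i3
        rw [e1]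
        have e2 : t + 1 - 1 = t := by omega
        have e3 : 2 * t + 2 - 1 = 2 * t + 1 := by omega
        rw [e2] at i3
        rw [e3]
        have h4 : (t + 1) * (Y j).card ≤ (t + 1) * (2 * (Y (j + 1)).card + (K + 2)) :=
          Nat.mul_le_mul_left _ hle
        calc (Y 0).card ≤ (t + 1) * (Y j).card + t * (K + 2) := i3
          _ ≤ (t + 1) * (2 * (Y (j + 1)).card + (K + 2)) + t * (K + 2) := by omega
          _ = (2 * t + 2) * (Y (j + 1)).card + (2 * t + 1) * (K + 2) := by ring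
  have := (claim m le_rfl).2.2
  omega

end Layers8bcb
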