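import Pool.Agent.Lib.MP_8bcb9d_coL.Count

/-!
# MP_8bcb9d_co: sets covered by few sets in convex position (helper27)
-/

set_option autoImplicit false

namespace Layers8bcb

open Finset

theorem conv_lt {c x y a b : ℝ} (hx : c < x) (hy : c < y) (ha : 0 ≤ a) (hb : 0 ≤ b)
    (hab : a + b = 1) : c < a * x + b * y := by
  have e : c = a * c + b * c := by rw [← add_mul, hab, one_mul]
  have h1 : a * c ≤ a * x := mul_le_mul_of_nonneg_left hx.le ha
  rcases hb.lt_or_eq with hb' | hb'
  · have h2 : b * c < b * y := mul_lt_mul_of_pos_left hy hb'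
    linarith
  · have ha1 : a = 1 := by linarith
    rw [← hb', ha1]; linarith

/-- A vertex `p` of the hull of `S` is not in the hull of the other points of any subset of the
hull of `S`. -/
theorem ext_hull {S : Finset E} {p : E} (h : p ∉ convexHull ℝ ((S : Set E) \ {p})) {T : Set E}
    (hT : T ⊆ convexHull ℝ (S : Set E)) : p ∉ convexHull ℝ (T \ {p}) := by
  have hfin : ((S : Set E) \ {p}).Finite := S.finite_toSet.subset Set.diff_subset
  obtain ⟨f, u, hu1, hu2⟩ := geometric_hahn_banach_point_closed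
    (convex_convexHull ℝ ((S : Set E) \ {p})) (hfin.isCompact_convexHull ℝ).isClosed h
  have hV : Convex ℝ {z : E | z = p ∨ f p < f z} := by
    intro x hx y hy a b ha hb hab
    have hf : f (a • x + b • y) = a * f x + b * f y := by simp
    have ha1 : a = 1 - b := by linarith
    rcases hx with hx | hx
    · rcases hy with hy | hy
      · left; rw [hx, hy, ← add_smul, hab, one_smul]
      · rcases hb.lt_or_eq with hb' | hb'
        · right
          show f p < f (a • x + b • y)
          rw [hf, hx, ha1]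
          nlinarith
        · left
          rw [hx, ha1, ← hb']; simp
    · rcases hy with hy | hy
      · rcases ha.lt_or_eq with ha' | ha'
        · right
          show f p < f (a • x + b • y)
          rw [hf, hy]
          have : b = 1 - a := by linarith
          rw [this]
          nlinarith
        · left
          have : b = 1 := by linarith
          rw [hy, ← ha', this]; simp
      · right
        show f p < f (a • x + b • y)
        rw [hf]
        exact conv_lt hx hy ha hb hab
  have hS : (S : Set E) ⊆ {z : E | z = p ∨ f p < f z} := by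
    intro z hz
    by_cases hzp : z = p
    · exact Or.inl hzp
    · exact Or.inr (hu1.trans (hu2 z (subset_convexHull ℝ _ ⟨hz, hzp⟩)))
  have hTV : T \ {p} ⊆ {z : E | f p < f z} := by
    intro z hz
    rcases convexHull_min hS hV (hT hz.1) with h1 | h1
    · exact absurd h1 hz.2
    · exact h1
  have hW : Convex ℝ {z : E | f p < f z} := by
    intro x hx y hy a b ha hb hab
    show f p < f (a • x + b • y)
    have hf : f (a • x + b • y) = a * f x + b * f y := by simp
    have hx' : f p < f x := hx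
    have hy' : f p < f y := hy
    rw [hf]
    exact conv_lt hx' hy' ha hb hab
  intro hp
  have h7 : f p < f p := convexHull_min hTV hW hp
  exact lt_irrefl _ h7

theorem c_succ (m : ℕ) : ∑ j ∈ range (m + 1), (m + 1).descFactorial (j + 1) =
    (m + 1) * (∑ j ∈ range m, m.descFactorial (j + 1) + 1) := by
  have h1 : ∀ j ∈ range (m + 1), (m + 1).descFactorial (j + 1) = (m + 1) * m.descFactorial j :=
    fun j _ => Nat.succ_descFactorial_succ m j
  rw [sum_congr rfl h1, ← mul_sum, sum_range_succ']
  simp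

theorem pieces_aux {K : ℕ} {X : Finset E} (hX : Gp X)
    (hdeg : ∀ x ∈ X, ∀ y ∈ X, x ≠ y → (Deg X x y).ncard ≤ K) {ι : Type} [DecidableEq ι]
    (A : ι → Finset E) (hA : ∀ i, ∀ p ∈ A i, p ∉ convexHull ℝ ((A i : Set E) \ {p})) :
    ∀ (m : ℕ) (I : Finset ι), I.card = m → ∀ Y : Finset E, Y ⊆ X →
      (∀ w ∈ X, w ∈ convexHull ℝ (Y : Set E) → w ∈ Y) → (∀ y ∈ Y, ∃ i ∈ I, y ∈ A i) →
      Y.card ≤ (∑ j ∈ range m, m.descFactorial (j + 1)) * (K + 2) := by
  classical
  intro m
  induction m with
  | zero =>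
    intro I hI Y _ _ hcov
    have hI0 : I = ∅ := card_eq_zero.1 hI
    have hY0 : Y = ∅ := by
      rw [eq_empty_iff_forall_notMem]
      intro y hy
      obtain ⟨i, hi, _⟩ := hcov y hy
      rw [hI0] at hi
      exact absurd hi (notMem_empty i)
    simp [hY0]
  | succ m ih =>
    intro I hI Y hYX hcl hcov
    have hpiece : ∀ i ∈ I, (Y.filter fun y => y ∈ A i).card ≤
        (∑ j ∈ range m, m.descFactorial (j + 1)) * (K + 2) + (K + 2) := by
      intro i hi
      set S := Y.filter fun y => y ∈ A i with hSdef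
      set Z := X.filter fun w => w ∈ convexHull ℝ (S : Set E) with hZdef
      have hSY : S ⊆ Y := filter_subset _ _
      have hSext : ∀ p ∈ S, p ∉ convexHull ℝ ((S : Set E) \ {p}) := by
        intro p hp hpc
        have hpA : p ∈ A i := (mem_filter.1 hp).2
        refine hA i p hpA (convexHull_mono ?_ hpc)
        intro z hz
        exact ⟨(mem_filter.1 (mem_coe.1 hz.1)).2, hz.2⟩
      have hZh : (Z : Set E) ⊆ convexHull ℝ (S : Set E) := by
        intro z hz
        exact (mem_filter.1 (mem_coe.1 hz)).2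
      have hSZ : S ⊆ Z := by
        intro z hz
        exact mem_filter.2 ⟨hYX (hSY hz), subset_convexHull ℝ _ (mem_coe.2 hz)⟩
      have hZcl : ∀ w ∈ X, w ∈ convexHull ℝ (Z : Set E) → w ∈ Z := by
        intro w hw hwc
        exact mem_filter.2 ⟨hw, convexHull_min hZh (convex_convexHull ℝ _) hwc⟩
      have hk := key (K := K) (Y := Z) (H := S) hX (filter_subset _ _) hZcl hSZ
        (fun p hp => ext_hull (hSext p hp) hZh) hdeg
      have hc : (Z \ S).card + S.card = Z.card := card_sdiff_add_card_eq_card hSZ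
      have hcl' : ∀ w ∈ X, w ∈ convexHull ℝ ((Z \ S : Finset E) : Set E) → w ∈ Z \ S := by
        intro w hw hwc
        have hsub : ((Z \ S : Finset E) : Set E) ⊆ convexHull ℝ (S : Set E) := by
          intro z hz
          exact hZh (mem_coe.2 (mem_sdiff.1 (mem_coe.1 hz)).1)
        have hwS : w ∈ convexHull ℝ (S : Set E) :=
          convexHull_min hsub (convex_convexHull ℝ _) hwc
        refine mem_sdiff.2 ⟨mem_filter.2 ⟨hw, hwS⟩, fun hws => ?_⟩
        refine ext_hull (hSext w hws) hsub (convexHull_mono ?_ hwc)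
        intro z hz
        refine ⟨hz, fun hzw => ?_⟩
        rw [Set.mem_singleton_iff] at hzw
        rw [hzw] at hz
        exact (mem_sdiff.1 (mem_coe.1 hz)).2 hws
      have hY' : (Z \ S).card ≤ (∑ j ∈ range m, m.descFactorial (j + 1)) * (K + 2) := by
        refine ih (I.erase i) (by rw [card_erase_of_mem hi, hI]; omega) (Z \ S)
          (sdiff_subset.trans (filter_subset _ _)) hcl' ?_
        intro y hy
        obtain ⟨hyZ, hyS⟩ := mem_sdiff.1 hy
        obtain ⟨hyX, hyc⟩ := mem_filter.1 hyZ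
        have hyY : y ∈ Y := hcl y hyX (convexHull_mono (by exact_mod_cast hSY) hyc)
        obtain ⟨l, hl, hyl⟩ := hcov y hyY
        refine ⟨l, mem_erase.2 ⟨fun hli => ?_, hl⟩, hyl⟩
        rw [hli] at hyl
        exact hyS (mem_filter.2 ⟨hyY, hyl⟩)
      omega
    have hsub : Y ⊆ I.biUnion fun i => Y.filter fun y => y ∈ A i := by
      intro y hy
      obtain ⟨i, hi, hyi⟩ := hcov y hy
      exact mem_biUnion.2 ⟨i, hi, mem_filter.2 ⟨hy, hyi⟩⟩
    have h1 := (card_le_card hsub).trans card_biUnion_le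
    have h2 := sum_le_card_nsmul I (fun i => (Y.filter fun y => y ∈ A i).card) _ hpiece
    rw [hI, smul_eq_mul] at h2
    rw [c_succ]
    calc Y.card ≤ _ := h1
      _ ≤ _ := h2
      _ = _ := by ring

theorem pieces :
    ∀ (K m : ℕ) (X Y : Finset (EuclideanSpace ℝ (Fin 2)))
      (A : Fin m → Finset (EuclideanSpace ℝ (Fin 2))),
      (∀ a ∈ X, ∀ b ∈ X, ∀ c ∈ X, a ≠ b → a ≠ c → b ≠ c →
        ¬ Collinear ℝ ({a, b, c} : Set (EuclideanSpace ℝ (Fin 2)))) →
      Y ⊆ X →
      (∀ w ∈ X, w ∈ convexHull ℝ (Y : Set (EuclideanSpace ℝ (Fin 2))) → w ∈ Y) →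
      (∀ i, ∀ p ∈ A i, p ∉ convexHull ℝ ((A i : Set (EuclideanSpace ℝ (Fin 2))) \ {p})) →
      (∀ y ∈ Y, ∃ i, y ∈ A i) →
      (∑ j ∈ Finset.range m, m.descFactorial (j + 1)) * (K + 2) < Y.card →
      ∃ x ∈ X, ∃ y ∈ X, x ≠ y ∧
        K < {z : EuclideanSpace ℝ (Fin 2) | z ∈ X ∧ z ≠ x ∧ z ≠ y ∧
              ∀ w ∈ X, w ∈ convexHull ℝ ({x, y, z} : Set (EuclideanSpace ℝ (Fin 2))) →
                w = x ∨ w = y ∨ w = z}.ncard := by
  classical
  intro K m X Y A hgp hYX hcl hA hcov hcard
  by_contra hcon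
  push Not at hcon
  have hdeg : ∀ x ∈ X, ∀ y ∈ X, x ≠ y → (Deg X x y).ncard ≤ K :=
    fun x hx y hy hxy => hcon x hx y hy hxy
  have h1 := pieces_aux (gp_of hgp) hdeg A hA m univ (by simp) Y hYX hcl
    (fun y hy => by
      obtain ⟨i, hi⟩ := hcov y hy
      exact ⟨i, mem_univ i, hi⟩)
  omega

end Layers8bcb
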